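import Pool.Agent.Helper47.EP.Goals
import Pool.Agent.Helper17.PF.Rep

/-!
# Project EP (MP_5b9a11_al), packet REP: the simple module
-/

set_option autoImplicit false

namespace Pool.Agent.Helper30.EP.REP

open MonoidAlgebra Pool.Agent.Helper17.PF Pool.Agent.Helper47.EP

section general

variable {F R : Type} [Field F] [Ring R] [Algebra F R]

theorem finrank_range_mulLeft_end {D : ℕ} (P : Module.End F (Fin D → F)) :
    Module.finrank F (LinearMap.range (LinearMap.mulLeft F P)) =
      D * Module.finrank F (LinearMap.range P) := by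
  let L : ((Fin D → F) →ₗ[F] LinearMap.range P) →ₗ[F] Module.End F (Fin D → F) :=
    { toFun := fun f => (LinearMap.range P).subtype ∘ₗ f
      map_add' := fun f g => LinearMap.ext fun v => rfl
      map_smul' := fun c f => LinearMap.ext fun v => rfl }
  have hinj : Function.Injective L := by
    intro f g h
    refine LinearMap.ext fun v => Subtype.ext ?_
    exact congrArg (fun φ : Module.End F (Fin D → F) => φ v) h
  have hran : LinearMap.range L = LinearMap.range (LinearMap.mulLeft F P) := by
    apply le_antisymm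
    · rintro _ ⟨f, rfl⟩
      obtain ⟨g, hg⟩ := Module.projective_lifting_property P.rangeRestrict f
        P.surjective_rangeRestrict
      refine ⟨g, LinearMap.ext fun v => ?_⟩
      have := congrArg (fun φ : (Fin D → F) →ₗ[F] LinearMap.range P => ((φ v : _) : Fin D → F)) hg
      exact this
    · rintro _ ⟨g, rfl⟩
      exact ⟨P.rangeRestrict ∘ₗ g, LinearMap.ext fun v => rfl⟩
  rw [← hran, LinearMap.finrank_range_of_inj hinj, Module.finrank_linearMap, Module.finrank_fin_fun]

theorem finrank_mulLeft [FiniteDimensional F R] {D : ℕ} (e : R)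
    (ρ : R →ₐ[F] Module.End F (Fin D → F)) (hρ : Function.Surjective ρ)
    (hinj : ∀ x, e * x = x → ρ x = 0 → x = 0) (x : R) (hx : e * x = x) :
    Module.finrank F (LinearMap.range (LinearMap.mulLeft F x)) =
      D * Module.finrank F (LinearMap.range (ρ x)) := by
  rw [← finrank_range_mulLeft_end]
  set f : LinearMap.range (LinearMap.mulLeft F x) →ₗ[F] Module.End F (Fin D → F) :=
    ρ.toLinearMap.domRestrict _ with hf
  have hfi : Function.Injective f := by
    rw [injective_iff_map_eq_zero]
    rintro ⟨_, ⟨y, rfl⟩⟩ h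
    apply Subtype.ext
    apply hinj
    · show e * (x * y) = x * y
      rw [← mul_assoc, hx]
    · exact h
  have hfr : LinearMap.range f = LinearMap.range (LinearMap.mulLeft F (ρ x)) := by
    apply le_antisymm
    · rintro _ ⟨⟨_, ⟨y, rfl⟩⟩, rfl⟩
      exact ⟨ρ y, (map_mul ρ x y).symm⟩
    · rintro _ ⟨B, rfl⟩
      obtain ⟨y, rfl⟩ := hρ B
      exact ⟨⟨_, ⟨y, rfl⟩⟩, map_mul ρ x y⟩
  rw [← hfr, LinearMap.finrank_range_of_inj hfi]

/-- the simple module below a central idempotent -/
theorem exists_rep [IsAlgClosed F] [FiniteDimensional F R] (e : R) (he : e * e = e) (he0 : e ≠ 0)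
    (hc : ∀ x, e * x = x * e) : ∃ (d : ℕ) (ρ : R →ₐ[F] Module.End F (Fin d → F)),
      0 < d ∧ Function.Surjective ρ ∧ ρ e = 1 := by
  have hart : IsArtinianRing R := IsArtinianRing.of_finite F R
  have hne : Ideal.span {e} ≠ (⊥ : Ideal R) := by
    rw [Ne, Ideal.span_singleton_eq_bot]
    exact he0
  obtain ⟨I, hI, hIe⟩ := (eq_bot_or_exists_atom_le (Ideal.span {e} : Ideal R)).resolve_left hne
  have hsimple : IsSimpleModule R I := isSimpleModule_iff_isAtom.2 hI
  have hfin : FiniteDimensional F I :=
    inferInstanceAs (FiniteDimensional F (I.restrictScalars F))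
  have hnt : Nontrivial I := IsSimpleModule.nontrivial R I
  have hsur := lsmul_surjective (k := F) (A := R) (M := I)
  let b := Module.finBasis F I
  refine ⟨Module.finrank F I, (b.equivFun.conjAlgEquiv F).toAlgHom.comp (Algebra.lsmul F F _),
    Module.finrank_pos, ?_, ?_⟩
  · intro B
    obtain ⟨B', hB⟩ := (b.equivFun.conjAlgEquiv F).surjective B
    obtain ⟨r, hr⟩ := hsur B'
    refine ⟨r, ?_⟩
    rw [← hB, ← hr]
    rfl
  · have h1 : (Algebra.lsmul F F I : R →ₐ[F] Module.End F I) e = 1 := by
      refine LinearMap.ext fun x => Subtype.ext ?_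
      show e * (x : R) = x
      obtain ⟨r, hr⟩ := Ideal.mem_span_singleton'.1 (hIe x.2)
      rw [← hr, hc, mul_assoc, he]
    show (b.equivFun.conjAlgEquiv F).toAlgHom ((Algebra.lsmul F F I : R →ₐ[F] Module.End F I) e) = 1
    rw [h1, map_one]

end general

theorem t (h1 : S_HB) (h2 : S_SIM) : S_REP := by
  intro p _ T A _ _ F _ _ C
  obtain ⟨b1, b2, -, -, b5, b6, -⟩ := h1 p T A F C
  obtain ⟨-, s2⟩ := h2 p T A F C
  set e := ee C A with he
  have hil : C.il ≠ 0 := by
    intro h
    have := C.il_mul
    rw [h, zero_mul] at this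
    exact zero_ne_one this
  have hψ0 : C.ψ 0 = 1 := AddChar.map_zero_eq_one _
  have hev : ∀ v w : A → T.K, (ev C v).coeff ⟨w, 0⟩ = if w = v then C.il else 0 := by
    intro v w
    rw [b5]
    simp [hψ0]
  -- `e` is the element `ev 0`
  have hev0 : ev C (0 : A → T.K) = e := by
    show single (1 : Hs T A) (1 : F) * ee C A = e
    rw [← MonoidAlgebra.one_def, one_mul]
  have he0 : e ≠ 0 := by
    intro h
    have := hev 0 0
    rw [hev0, h] at this
    simp at this
    exact hil this.symm
  have hfd : FiniteDimensional F (MonoidAlgebra F (Hs T A)) := inferInstance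
  obtain ⟨d, ρ, hd, hsur, hone⟩ := exists_rep (F := F) e b1 he0 b2
  have hinj : ∀ x, e * x = x → ρ x = 0 → x = 0 := by
    intro x hx h0
    by_contra hne
    obtain ⟨a, b, hab⟩ := s2 x hx hne
    have h3 := congrArg ρ hab
    rw [hone, map_sum] at h3
    simp only [map_mul, h0, mul_zero, zero_mul, Finset.sum_const_zero] at h3
    have : Nontrivial (Module.End F (Fin d → F)) := by
      have : Nonempty (Fin d) := ⟨⟨0, hd⟩⟩
      infer_instance
    exact zero_ne_one h3
  -- the dimension
  have hdim : Module.finrank F (LinearMap.range (LinearMap.mulLeft F e)) =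
      Fintype.card (A → T.K) := by
    set L := Fintype.linearCombination F (ev C : (A → T.K) → MonoidAlgebra F (Hs T A)) with hL
    have hLapp : ∀ c : (A → T.K) → F, L c = ∑ v, c v • ev C v := fun c => rfl
    have hLc : ∀ (c : (A → T.K) → F) (w : A → T.K), (L c).coeff ⟨w, 0⟩ = c w * C.il := by
      intro c w
      rw [hLapp, MonoidAlgebra.coeff_sum, Finsupp.finsetSum_apply,
        Finset.sum_eq_single w]
      · rw [MonoidAlgebra.coeff_smul, Finsupp.smul_apply, hev, if_pos rfl, smul_eq_mul]
      · intro v _ hv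
        rw [MonoidAlgebra.coeff_smul, Finsupp.smul_apply, hev, if_neg hv.symm, smul_zero]
      · intro h
        exact absurd (Finset.mem_univ _) h
    have hLi : Function.Injective L := by
      rw [injective_iff_map_eq_zero]
      intro c hc
      funext w
      have := hLc c w
      rw [hc] at this
      have h0 : (0 : MonoidAlgebra F (Hs T A)).coeff ⟨w, 0⟩ = 0 := rfl
      rw [h0] at this
      exact (mul_eq_zero.1 this.symm).resolve_right hil
    have hran : LinearMap.range L = LinearMap.range (LinearMap.mulLeft F e) := by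
      apply le_antisymm
      · rintro _ ⟨c, rfl⟩
        refine ⟨L c, ?_⟩
        show e * L c = L c
        rw [hLapp, Finset.mul_sum]
        refine Finset.sum_congr rfl fun v _ => ?_
        rw [mul_smul_comm]
        congr 1
        unfold ev
        rw [b2, mul_assoc, b1]
      · rintro _ ⟨y, rfl⟩
        have hy : e * (e * y) = e * y := by rw [← mul_assoc, b1]
        refine ⟨fun v => (T.l : F) * (e * y).coeff ⟨v, 0⟩, ?_⟩
        rw [hLapp]
        exact (b6 (e * y) hy).symm
    rw [← hran, LinearMap.finrank_range_of_inj hLi, Module.finrank_fintype_fun_eq_card]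
  have hdd : d = T.l ^ Fintype.card A := by
    have h3 := finrank_mulLeft e ρ hsur hinj e b1
    rw [hdim, hone] at h3
    have h4 : LinearMap.range (1 : Module.End F (Fin d → F)) = ⊤ := LinearMap.range_id
    rw [h4, finrank_top, Module.finrank_fin_fun, Fintype.card_fun, T.card, ← pow_mul,
      mul_comm 2, pow_mul] at h3
    have h5 : (T.l ^ Fintype.card A) ^ 2 = d ^ 2 := by rw [h3]; ring
    exact (Nat.pow_left_injective (n := 2) (by norm_num) h5).symm
  subst hdd
  refine ⟨ρ, hsur, hone, hinj, fun x hx => ?_⟩
  exact finrank_mulLeft e ρ hsur hinj x hx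

end Pool.Agent.Helper30.EP.REP
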